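import Pool.Agent.H28.QG

set_option autoImplicit false

open Set Real Pool.Agent.H28.QG

namespace Pool.Agent.Results.MP_1debac_an.Path

def s : Fin 4 → Fin 5 := ![0, 1, 2, 3]
def t : Fin 4 → Fin 5 := ![1, 2, 3, 4]
def α : Fin 5 → ℝ := ![0, -1, 0, -1, 0]

lemma ve (c z : ℝ → ℝ) (hz : z 1 ≠ 0) (u : Fin 5 → ℝ) :
    VE s t (fun _ => 1) α c z u ↔ u 1 = c 1 * u 0 ∧ u 0 + u 2 - 2 * c 1 * u 1 = -(z 1 * u 1) ∧
      u 1 + u 3 = 2 * c 1 * u 2 ∧ u 2 + u 4 - 2 * c 1 * u 3 = -(z 1 * u 3) ∧ u 3 = c 1 * u 4 := by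
  simp only [VE, Fin.forall_fin_succ, Fin.sum_univ_succ, s, t, α]
  simp [hz, sub_eq_zero]
  refine fun _ => and_congr ?_ (and_congr ?_ (and_congr ?_ Iff.rfl)) <;>
    field_simp <;> constructor <;> intro h <;> linarith

lemma sh {x : ℝ} (hx : 0 < x) : sinh x < x * cosh x := by
  obtain ⟨y, hy, h⟩ := exists_hasDerivAt_eq_slope (fun x => x * cosh x - sinh x)
    (fun x => x * sinh x) hx (by fun_prop) fun y _ =>
      (((hasDerivAt_id y).mul (hasDerivAt_cosh y)).sub (hasDerivAt_sinh y)).congr_deriv (by simp)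
  have := mul_pos hy.1 (sinh_pos_iff.2 hy.1)
  rw [h] at this
  simpa using (div_pos_iff_of_pos_right (by linarith)).1 this

lemma eig0 : Eig s t (fun _ => 1) α 0 (ef s t (fun _ => 1) (fun _ => 1) (fun x => x)
    ![1, 1, 0, -1, -1]) :=
  ((ve _ _ one_ne_zero _).2 (by simp; norm_num)).eig fund0 (fun _ => ⟨zero_le_one, one_ne_zero⟩)
    ⟨0, by simp [s]⟩

lemma neg {k : ℝ} (hk : 0 < k) :
    (∃ ψ, Eig s t (fun _ => 1) α (-k ^ 2) ψ) ↔ 2 * k * sinh k = cosh k := by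
  have s0 := sinh_pos_iff.2 hk
  have c0 := cosh_pos k
  have z0 : sinh (k * 1) / k ≠ 0 := by rw [mul_one]; positivity
  have q := cosh_sq k
  constructor
  · rintro ⟨ψ, h⟩
    obtain ⟨u, hu, u0, -⟩ := h.ve (fundn hk.ne') fun _ => ⟨zero_le_one, z0⟩
    rw [ve _ _ z0] at hu
    simp only [mul_one] at hu
    obtain ⟨a, b, c, d, e⟩ := hu
    field_simp at b d
    have r := sh (x := 2 * k) (by positivity)
    rw [sinh_two_mul, cosh_two_mul] at r
    have y : u 4 = u 0 := by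
      have : (k * (cosh k ^ 2 + sinh k ^ 2) - sinh k * cosh k) * (u 4 - u 0) = 0 := by
        rw [a] at b
        rw [e] at d
        linear_combination b - d - k * (u 4 - u 0) * q
      linarith [(mul_eq_zero.1 this).resolve_left (by linarith)]
    have w : u 2 = u 0 := mul_left_cancel₀ c0.ne' (by rw [a, e, y] at c; linarith)
    have n : u 0 ≠ 0 := fun h => u0 (funext fun v => by fin_cases v <;> simp [a, e, y, w, h])
    rw [a, w] at b
    exact mul_left_cancel₀ (mul_ne_zero n s0.ne') (by linear_combination -b - 2 * k * u 0 * q)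
  · intro h
    have r : 1 + 1 - 2 * cosh k * cosh k = -(sinh k / k * cosh k) := by
      field_simp
      linear_combination -2 * k * q - sinh k * h
    exact ⟨_, ((ve _ _ z0 ![1, cosh k, 1, cosh k, 1]).2 (by simpa [two_mul] using r)).eig
      (fundn hk.ne') (fun _ => ⟨zero_le_one, z0⟩) ⟨0, by simp [s]⟩⟩

lemma second : Second s t (fun _ => 1) α 0 := by
  obtain ⟨k, hk, h⟩ : ∃ k ∈ Icc (0 : ℝ) 1, 2 * k * sinh k - cosh k = 0 :=
    intermediate_value_Icc zero_le_one (f := fun k => 2 * k * sinh k - cosh k) (by fun_prop)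
      ⟨by simp, by
        nlinarith [cosh_sq 1, cosh_pos 1, self_le_sinh_iff.2 (zero_le_one' ℝ)]⟩
  have k0 : 0 < k := hk.1.lt_of_ne (by rintro rfl; simp at h)
  have key : ∀ a b : ℝ, 0 < a → 2 * a * sinh a = cosh a → 2 * b * sinh b = cosh b → ¬ a < b := by
    intro a b ha h1 h2 h
    have := sinh_pos_iff.2 (sub_pos.2 h)
    rw [sinh_sub, ← h1, ← h2] at this
    nlinarith [mul_pos (sinh_pos_iff.2 ha) (sinh_pos_iff.2 (ha.trans h))]
  refine ⟨⟨_, eig0⟩, -k ^ 2, ⟨by simp [k0], (neg k0).2 (by linarith)⟩, ?_⟩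
  rintro l ⟨hl, h2⟩
  obtain ⟨j, hj, rfl⟩ : ∃ j : ℝ, 0 < j ∧ l = -j ^ 2 :=
    ⟨√(-l), sqrt_pos.2 (by linarith), by rw [sq_sqrt (by linarith), neg_neg]⟩
  have h3 := (neg hj).1 h2
  rw [le_antisymm (not_lt.1 (key k j k0 (by linarith) h3)) (not_lt.1 (key j k hj h3 (by linarith)))]

theorem result : ∃ (n m : ℕ) (s t : Fin m → Fin n) (L : Fin m → ℝ) (α : Fin n → ℝ),
    (∀ e, 0 < L e) ∧ Conn s t univ ∧ α ≠ 0 ∧ (Hot s t L α).Infinite ∧
      ∃ e, ∃ x ∈ Icc 0 (L e), (e, x) ∉ Hot s t L α := by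
  refine ⟨5, 4, s, t, fun _ => 1, α, fun _ => one_pos, ?_, fun h => by simpa [α] using congrFun h 1,
    ?_, 2, 0, by simp, ?_⟩
  · have r : ∀ e, Relation.EqvGen (fun a b => ∃ e ∈ (univ : Set (Fin 4)), s e = a ∧ t e = b)
        (s e) (t e) := fun e => .rel _ _ ⟨e, trivial, rfl, rfl⟩
    have k : ∀ a, Relation.EqvGen (fun a b => ∃ e ∈ (univ : Set (Fin 4)), s e = a ∧ t e = b)
        a 2 := by
      intro a
      fin_cases a
      exacts [.trans _ _ _ (r 0) (r 1), r 1, .refl _, .symm _ _ (r 2),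
        .symm _ _ (.trans _ _ _ (r 2) (r 3))]
    exact fun a b => .trans _ _ _ (k a) (.symm _ _ (k b))
  · refine ((Icc_infinite (zero_lt_one' ℝ)).image (f := fun x => ((0 : Fin 4), x))
      fun _ _ _ _ h => congrArg Prod.snd h).mono ?_
    rintro _ ⟨x, hx, rfl⟩
    refine ⟨hx, _, _, second, eig0, Or.inl fun e y hy => ?_⟩
    fin_cases e <;> simp [ef, s, t] <;> linarith [hy.1]
  · rintro ⟨-, μ, ψ, h1, h2, h3⟩
    rw [h1.uniq second] at h2
    obtain ⟨u, hu, u0, hψ⟩ := h2.ve fund0 fun _ => ⟨zero_le_one, one_ne_zero⟩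
    obtain ⟨a, b, c, d, e⟩ := (ve _ _ one_ne_zero _).1 hu
    have v : ∀ e, ψ e 0 = u (s e) := fun e => by simp [hψ e 0 (by simp), ef]
    refine u0 (funext fun w => ?_)
    rcases h3 with h | h <;>
    · have h1 := h 1 0 (by simp)
      have h3 := h 3 0 (by simp)
      simp [v, s] at h1 h3
      fin_cases w <;> simp <;> linarith

end Pool.Agent.Results.MP_1debac_an.Path
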